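import Mathlib

namespace Pool.Agent.Results.MP_1d13cc_al.Counter

@[ext] structure M where
  n : ℕ
  a : ℤ
  c : ℤ
  h : n = 0 → 0 ≤ a

instance : Mul M := ⟨fun x y => ⟨x.n + y.n, x.a + y.a + x.n * y.c, x.c + y.c, fun h => by
  have h1 : x.n = 0 := by omega
  have := x.h h1
  have := y.h (by omega)
  rw [h1]; omega⟩⟩
instance : One M := ⟨⟨0, 0, 0, fun _ => le_rfl⟩⟩

@[simp] theorem mul_n (x y : M) : (x * y).n = x.n + y.n := rfl
@[simp] theorem mul_a (x y : M) : (x * y).a = x.a + y.a + x.n * y.c := rfl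
@[simp] theorem mul_c (x y : M) : (x * y).c = x.c + y.c := rfl
@[simp] theorem one_n : (1 : M).n = 0 := rfl
@[simp] theorem one_a : (1 : M).a = 0 := rfl
@[simp] theorem one_c : (1 : M).c = 0 := rfl

instance : Monoid M where
  mul_assoc x y z := by ext <;> simp <;> ring
  one_mul x := by ext <;> simp
  mul_one x := by ext <;> simp

def μ (x : M) : ℕ ×ₗ ℕ := toLex (x.n, if x.n = 0 then x.a.toNat else 0)

theorem key (x y u v : M) (e : x = u * y * v) : μ y < μ x ∨ ∃ p q, y = p * x * q := by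
  have e1 := congrArg M.n e
  have e2 := congrArg M.a e
  simp only [mul_n, mul_a] at e1 e2
  by_cases h : y.n < x.n
  · exact Or.inl (Prod.Lex.toLex_lt_toLex.2 (Or.inl h))
  have hn : y.n = x.n := by omega
  by_cases h0 : x.n = 0
  · have hu : u.n = 0 := by omega
    have a1 := u.h hu
    have a2 := v.h (by omega)
    have a3 := y.h (by omega)
    rw [hu, hn, h0] at e2
    by_cases ha : y.a < x.a
    · left
      refine Prod.Lex.toLex_lt_toLex.2 (Or.inr ⟨hn, ?_⟩)
      simp only [hn, h0, if_true]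
      omega
    · right
      refine ⟨1, ⟨0, 0, y.c - x.c, fun _ => le_rfl⟩, ?_⟩
      ext
      · simp [hn]
      · simp [h0]; omega
      · simp
  · right
    refine ⟨⟨0, y.a - x.a + x.n * |y.a - x.a|, y.c - x.c + |y.a - x.a|, fun _ => ?_⟩,
      ⟨0, 0, -|y.a - x.a|, fun _ => le_rfl⟩, ?_⟩
    · have b1 := neg_abs_le (y.a - x.a)
      have b2 := abs_nonneg (y.a - x.a)
      have b3 : (1 : ℤ) ≤ x.n := by omega
      nlinarith
    · ext
      · simp [hn]
      · simp only [mul_n, mul_a, mul_c]; push_cast; ring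
      · simp only [mul_n, mul_a, mul_c]; ring

theorem result : ∃ (H : Type) (_ : Monoid H),
    (∀ x y : H, ¬ IsUnit y → x * y ≠ x ∧ y * x ≠ x) ∧
    (¬ ∃ a : ℕ → H, ∀ n, {z | ∃ x y, z = x * a n * y} ⊂ {z | ∃ x y, z = x * a (n + 1) * y}) ∧
    ∃ u v x : H, (¬ IsUnit u ∨ ¬ IsUnit v) ∧ u * x * v = x := by
  refine ⟨M, inferInstance, fun x y hy => ⟨fun h => hy ?_, fun h => hy ?_⟩, ?_,
    ⟨0, 1, 1, fun _ => by norm_num⟩, ⟨0, 0, -1, fun _ => le_rfl⟩, ⟨1, 0, 0, by simp⟩,
    Or.inl ?_, by ext <;> simp⟩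
  · have e1 := congrArg M.n h
    have e2 := congrArg M.a h
    have e3 := congrArg M.c h
    simp only [mul_n, mul_a, mul_c] at e1 e2 e3
    have e4 : y.c = 0 := by omega
    rw [e4] at e2
    have : y = 1 := M.ext (by simp; omega) (by simp; omega) e4
    rw [this]; exact isUnit_one
  · have e1 := congrArg M.n h
    have e2 := congrArg M.a h
    have e3 := congrArg M.c h
    simp only [mul_n, mul_a, mul_c] at e1 e2 e3
    have e4 : y.n = 0 := by omega
    rw [e4] at e2
    have : y = 1 := M.ext e4 (by simp; omega) (by simp; omega)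
    rw [this]; exact isUnit_one
  · rintro ⟨a, ha⟩
    obtain ⟨n, hn⟩ := WellFounded.not_rel_apply_succ (r := (· < ·)) (fun n => μ (a n))
    obtain ⟨u, v, e⟩ := (ha n).1 ⟨1, 1, (by rw [one_mul, mul_one])⟩
    obtain ⟨p, q, e'⟩ := (key _ _ _ _ e).resolve_left hn
    apply (ha n).2
    rintro _ ⟨s, t, rfl⟩
    exact ⟨s * p, q * t, by rw [e']; simp only [mul_assoc]⟩
  · intro h
    obtain ⟨w, hw⟩ := h.exists_right_inv
    have e1 := congrArg M.n hw
    have e2 := congrArg M.a hw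
    simp at e1 e2
    have := w.h e1
    omega

end Pool.Agent.Results.MP_1d13cc_al.Counter
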